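import Pool.Agent.Helper60.RT.Defs2
import Pool.Agent.Helper92.LA.A3
import Pool.Agent.Helper92.GC.Q1

/-!
# RT-D1: decoupling of degree 3 and decoupling of the linear family on a box

D1a: `dec12` (Helper78/CG) with `b = 0`, `f = (t - t₀)²`, `g = (t - t₀)³`, `r = 3 (t - t₀)`, `ρ = 4`.
D1b: the decoupling theorem for two weights `v_j` with `IsDw (2 r) ((R₀)_j - r) v_j c₀ Cd`: lower bound `c₀/(2r)` on the ball
(sup metric of `ℝ × ℝ`), upper bound `Cd 0/(2r)` on the ball of radius `κ r`, outside the tails, `lf2 ≤ card ^ 12`. As Helper40/QL/L4.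
-/

open MeasureTheory Real Set Filter Topology

set_option autoImplicit false

namespace Pool.Agent.Helper60.RT

open Pool.Agent.Helper22.AE
open Pool.Agent.Helper92.GC (dt tp Tq uu tt arc dd IsDw)
open Pool.Agent.Helper22.AC (IsWt)
open Pool.Agent.Helper92.DT (m12 IsMul12)
open Pool.Agent.Helper78.CD (n12)
open Pool.Agent.Helper78.CE (hs mu2)
open Pool.Agent.Helper78.CG (Crv ff)

/-! ## D1a -/

private theorem crv82 {t₀ : ℝ} (ht : |t₀| ≤ 3) : Crv 1 6 4 (fun t => (t - t₀) ^ 2) (fun t => (t - t₀) ^ 3) (fun t => 3 * (t - t₀)) := by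
  have hd : ∀ t : ℝ, HasDerivAt (fun t : ℝ => t - t₀) 1 t := fun t => (hasDerivAt_id t).sub_const t₀
  refine ⟨⟨fun t => 2 * (t - t₀), fun t => 3 * (t - t₀) ^ 2, fun _ => 2, fun t _ => ⟨?_, ?_, ?_, ?_, by norm_num, by norm_num⟩⟩, ?_, ?_⟩
  · refine ((hd t).pow 2).congr_deriv ?_
    push_cast
    ring
  · refine ((hd t).const_mul 2).congr_deriv ?_
    ring
  · refine ((hd t).pow 3).congr_deriv ?_
    push_cast
    ring
  · refine (((hd t).pow 2).const_mul 3).congr_deriv ?_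
    push_cast
    ring
  · intro t h
    have h1 := abs_le.1 h
    have h2 := abs_le.1 ht
    rw [abs_le]
    constructor <;> linarith
  · intro t t' _ _ h
    constructor <;> linarith

/-- D1a -/
theorem dec12_all {lam : ℝ} (hl : 1 ≤ lam) : ∀ ε : ℝ, 0 < ε → ∃ M : ℕ, 2 ≤ M ∧ ∃ C₀ : ℝ, 1 ≤ C₀ ∧ Dec12 ε lam M C₀ := by
  intro ε hε
  obtain ⟨M, hM, C, hC, hd⟩ := Pool.Agent.Helper78.CG.dec12 (ε := ε) (c := 1) (C₀ := 6) (lam := lam) hε one_pos hl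
  refine ⟨M, hM, 5 * C, by linarith, ?_⟩
  intro m H Y t₀ v₁ v₂ a S hH hY ht h₁ h₂ hS hcond
  have hM0 : (0 : ℝ) < M := by exact_mod_cast (by omega : 0 < M)
  have hMe : 0 ≤ (M : ℝ) ^ (ε * (m : ℝ)) := Real.rpow_nonneg hM0.le _
  have hP : (0 : ℝ) < (M : ℝ) ^ (3 * m) := by positivity
  have h := hd m 0 H 4 Y Y (fun t => (t - t₀) ^ 2) (fun t => (t - t₀) ^ 3) (fun t => 3 * (t - t₀)) v₁ v₂ a S hH hY hY
    (by norm_num) (by norm_num) (fun k hk => ?_) (crv82 ht) h₁ h₂ ?_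
  · refine h.trans ?_
    have hn : ∀ T : Finset (ℤ × ℤ), 0 ≤ n12 (mu2 v₁ v₂) (hs T a (ff 0 fun t => (t - t₀) ^ 2) (ff 0 fun t => (t - t₀) ^ 3)) := by
      intro T
      unfold n12
      exact Real.rpow_nonneg (integral_nonneg fun _ => by positivity) _
    have hs0 : 0 ≤ ∑ r ∈ Finset.range (M ^ m), n12 (mu2 v₁ v₂) (hs (arc 0 S (M ^ m) r) a (ff 0 fun t => (t - t₀) ^ 2) (ff 0 fun t => (t - t₀) ^ 3)) :=
      Finset.sum_nonneg fun r _ => hn _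
    refine mul_le_mul_of_nonneg_right ?_ hs0
    exact mul_le_mul_of_nonneg_right (by linarith) hMe
  · obtain ⟨h1, h2, h3⟩ := hS k hk
    refine ⟨h1, h2, ?_⟩
    have h4 := abs_le.1 h3
    have h5 := abs_le.1 ht
    rw [abs_le]
    constructor <;> linarith
  · have e1 : C * (1 / Y + 4 / Y) = 5 * C / Y := by ring
    have e2 : H * (1 / (M : ℝ) ^ m) ^ 3 = H / (M : ℝ) ^ (3 * m) := by
      rw [div_pow, one_pow, ← pow_mul, mul_comm m 3]
      ring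
    rw [e1, e2, div_le_div_iff₀ hY hP]
    exact hcond

/-! ## D1b -/

private theorem tq82 : IsProbabilityMeasure ((volume : Measure (ℝ × ℝ)).restrict Tq) := by
  constructor
  unfold Tq
  rw [Measure.restrict_apply_univ, Measure.volume_eq_prod, Measure.prod_prod, Real.volume_Icc,
    sub_zero, ENNReal.ofReal_one, mul_one]

private theorem m12_le82 (S : Finset (ℤ × ℤ)) (b : ℤ × ℤ → ℂ) {M : ℝ} (hb : ∑ k ∈ S, ‖b k‖ ≤ M) : m12 S b ≤ M ^ 12 := by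
  have := tq82
  have h1 : ∀ c, ‖tp S b c‖ ^ 12 ≤ M ^ 12 := fun c =>
    pow_le_pow_left₀ (norm_nonneg _) ((Pool.Agent.Helper92.GC.tp_norm_le S b c).trans hb) 12
  unfold m12
  calc ∫ c in Tq, ‖tp S b c‖ ^ 12 ≤ ∫ _c in Tq, M ^ 12 := by
        refine integral_mono ?_ (integrable_const _) h1
        refine Integrable.of_bound (C := M ^ 12) ((Pool.Agent.Helper92.GC.tp_cont S b).norm.pow 12).aestronglyMeasurable
          (Eventually.of_forall fun c => ?_)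
        rw [Real.norm_of_nonneg (by positivity)]
        exact h1 c
    _ = M ^ 12 := by simp

private theorem lf_nn82 (t₀ : ℝ) (S : Finset (ℤ × ℤ)) (a : ℤ × ℤ → ℂ) (R : R2) : 0 ≤ lf2 t₀ S a R :=
  Pool.Agent.Helper92.DT.m12_nonneg _ _

private theorem lf_ct82 (t₀ : ℝ) (S : Finset (ℤ × ℤ)) (a : ℤ × ℤ → ℂ) : Continuous (fun R : R2 => lf2 t₀ S a R) := by
  unfold lf2
  refine Pool.Agent.Helper92.LA.m12_cont_coef S (fun (R : R2) k => a k * ee (ln2 t₀ R k)) fun k _ => ?_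
  refine continuous_const.mul (ee_cont.comp ?_)
  unfold ln2
  fun_prop

private theorem lf_le82 (t₀ : ℝ) (S : Finset (ℤ × ℤ)) (a : ℤ × ℤ → ℂ) (R : R2) : lf2 t₀ S a R ≤ (∑ k ∈ S, ‖a k‖) ^ 12 := by
  refine m12_le82 S _ (le_of_eq (Finset.sum_congr rfl fun k _ => ?_))
  rw [norm_mul, ee_norm, mul_one]

private theorem lf_card82 {t₀ : ℝ} {S : Finset (ℤ × ℤ)} {a : ℤ × ℤ → ℂ} (ha : ∀ k, ‖a k‖ ≤ 1) (R : R2) : lf2 t₀ S a R ≤ (S.card : ℝ) ^ 12 := by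
  refine (lf_le82 t₀ S a R).trans (pow_le_pow_left₀ (Finset.sum_nonneg fun k _ => norm_nonneg _) ?_ 12)
  calc ∑ k ∈ S, ‖a k‖ ≤ ∑ _k ∈ S, (1 : ℝ) := Finset.sum_le_sum fun k _ => ha k
    _ = _ := by simp

private theorem wint82 {v : ℝ → ℝ} (h1 : ∫ R, v R = 1) : Integrable v := by
  by_contra hcon
  rw [integral_undef hcon] at h1
  exact zero_ne_one h1

/-- the measure `v(R) dR` -/
private noncomputable def nv (v : ℝ → ℝ) : Measure ℝ := (volume : Measure ℝ).withDensity fun R => ENNReal.ofReal (v R)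

private theorem prob82 {X : ℝ} {v : ℝ → ℝ} (hv : IsWt X v) : IsProbabilityMeasure (nv v) := by
  have hint : Integrable v := wint82 hv.int_one
  constructor
  unfold nv
  rw [withDensity_apply _ MeasurableSet.univ, Measure.restrict_univ,
    ← ofReal_integral_eq_lintegral_ofReal hint (Eventually.of_forall hv.nonneg), hv.int_one,
    ENNReal.ofReal_one]

/-- the measure on `ℝ²` -/
private noncomputable def n2 (v₁ v₂ : ℝ → ℝ) : Measure R2 := (nv v₁).prod (nv v₂)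

/-- the phases of the linear family -/
private noncomputable def qs (t₀ : ℝ) (S : Finset (ℤ × ℤ)) (a : ℤ × ℤ → ℂ) : (ℝ × ℝ) × (ℝ × ℝ) → ℂ :=
  hs S a (fun k => uu 0 k * (tt 0 k - t₀) ^ 2) (fun k => uu 0 k * (tt 0 k - t₀) ^ 3)

private theorem qs_cont82 (t₀ : ℝ) (S : Finset (ℤ × ℤ)) (a : ℤ × ℤ → ℂ) : Continuous (qs t₀ S a) := by
  unfold qs hs
  refine continuous_finsetSum _ fun k _ => continuous_const.mul (ee_cont.comp ?_)
  unfold dt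
  fun_prop

private theorem qs_norm82 (t₀ : ℝ) (S : Finset (ℤ × ℤ)) (a : ℤ × ℤ → ℂ) (q : (ℝ × ℝ) × (ℝ × ℝ)) :
    ‖qs t₀ S a q‖ ≤ ∑ k ∈ S, ‖a k‖ := by
  unfold qs hs
  refine (norm_sum_le _ _).trans (le_of_eq (Finset.sum_congr rfl fun k _ => ?_))
  rw [norm_mul, ee_norm, mul_one]

private theorem qs_slice82 (t₀ : ℝ) (S : Finset (ℤ × ℤ)) (a : ℤ × ℤ → ℂ) (R : R2) (c : ℝ × ℝ) :
    qs t₀ S a (c, R) = tp S (fun k => a k * ee (ln2 t₀ R k)) c := by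
  unfold qs hs tp
  refine Finset.sum_congr rfl fun k _ => ?_
  have e : dt k (c, R).1 + (c, R).2.1 * (uu 0 k * (tt 0 k - t₀) ^ 2) + (c, R).2.2 * (uu 0 k * (tt 0 k - t₀) ^ 3) =
      dt k c + ln2 t₀ R k := by
    unfold ln2
    ring
  rw [e, ee_add]
  ring

private theorem n12_eq82 {Y : ℝ} {v₁ v₂ : ℝ → ℝ} (h₁ : IsWt Y v₁) (h₂ : IsWt Y v₂) (t₀ : ℝ) (S : Finset (ℤ × ℤ)) (a : ℤ × ℤ → ℂ) :
    n12 (mu2 v₁ v₂) (qs t₀ S a) = (∫ R, lf2 t₀ S a R ∂(n2 v₁ v₂)) ^ (1 / 6 : ℝ) := by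
  unfold n12
  congr 1
  have := tq82
  have := prob82 h₁
  have := prob82 h₂
  have hmu : mu2 v₁ v₂ = (volume.restrict Tq).prod (n2 v₁ v₂) := rfl
  have hp : IsProbabilityMeasure (n2 v₁ v₂) := by
    unfold n2
    infer_instance
  have hint : Integrable (fun q => ‖qs t₀ S a q‖ ^ 12) ((volume.restrict Tq).prod (n2 v₁ v₂)) := by
    refine Integrable.of_bound (C := (∑ k ∈ S, ‖a k‖) ^ 12) ((qs_cont82 t₀ S a).norm.pow 12).aestronglyMeasurable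
      (Eventually.of_forall fun q => ?_)
    rw [Real.norm_of_nonneg (by positivity)]
    exact pow_le_pow_left₀ (norm_nonneg _) (qs_norm82 t₀ S a q) 12
  rw [hmu, integral_prod_symm _ hint]
  refine integral_congr_ae (Eventually.of_forall fun R => ?_)
  simp only
  unfold lf2 m12
  simp only [qs_slice82]

/-- the density of `n2` -/
private noncomputable def w2 (v₁ v₂ : ℝ → ℝ) (R : R2) : ℝ := v₁ R.1 * v₂ R.2

private theorem w2_nonneg {v₁ v₂ : ℝ → ℝ} (h₁ : ∀ t, 0 ≤ v₁ t) (h₂ : ∀ t, 0 ≤ v₂ t) (R : R2) : 0 ≤ w2 v₁ v₂ R :=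
  mul_nonneg (h₁ _) (h₂ _)

private theorem w2_cont {v₁ v₂ : ℝ → ℝ} (h₁ : Continuous v₁) (h₂ : Continuous v₂) : Continuous (w2 v₁ v₂) := by
  unfold w2
  fun_prop

private theorem n2_density {v₁ v₂ : ℝ → ℝ} (h₁ : Continuous v₁) (h₂ : Continuous v₂) (p₁ : ∀ t, 0 ≤ v₁ t) :
    n2 v₁ v₂ = (volume : Measure R2).withDensity (fun R => ENNReal.ofReal (w2 v₁ v₂ R)) := by
  unfold n2 nv
  have m₁ : Measurable fun R => ENNReal.ofReal (v₁ R) := h₁.measurable.ennreal_ofReal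
  have m₂ : Measurable fun R => ENNReal.ofReal (v₂ R) := h₂.measurable.ennreal_ofReal
  rw [prod_withDensity m₁ m₂]
  have e : (fun z : ℝ × ℝ => ENNReal.ofReal (v₁ z.1) * ENNReal.ofReal (v₂ z.2)) =
      fun R : R2 => ENNReal.ofReal (w2 v₁ v₂ R) := by
    funext z
    unfold w2
    rw [ENNReal.ofReal_mul (p₁ _)]
  rw [e]
  rfl

private theorem set82 {Y : ℝ} {v₁ v₂ : ℝ → ℝ} (h₁ : IsWt Y v₁) (h₂ : IsWt Y v₂) (F : R2 → ℝ) {s : Set R2} (hs : MeasurableSet s) :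
    ∫ R in s, F R ∂(n2 v₁ v₂) = ∫ R in s, w2 v₁ v₂ R * F R := by
  rw [n2_density h₁.cont h₂.cont h₁.nonneg, restrict_withDensity hs,
    integral_withDensity_eq_integral_toReal_smul ((w2_cont h₁.cont h₂.cont).measurable.ennreal_ofReal)
      (Filter.Eventually.of_forall fun _ => ENNReal.ofReal_lt_top)]
  refine integral_congr_ae (Eventually.of_forall fun R => ?_)
  simp only
  rw [ENNReal.toReal_ofReal (w2_nonneg h₁.nonneg h₂.nonneg R), smul_eq_mul]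

private theorem n2_prob {Y : ℝ} {v₁ v₂ : ℝ → ℝ} (h₁ : IsWt Y v₁) (h₂ : IsWt Y v₂) : IsProbabilityMeasure (n2 v₁ v₂) := by
  have := prob82 h₁
  have := prob82 h₂
  unfold n2
  infer_instance

private theorem F_int82 {Y : ℝ} {v₁ v₂ : ℝ → ℝ} (h₁ : IsWt Y v₁) (h₂ : IsWt Y v₂) {F : R2 → ℝ} (hF : Continuous F)
    (h0 : ∀ R, 0 ≤ F R) {D : ℝ} (hD : ∀ R, F R ≤ D) : Integrable F (n2 v₁ v₂) := by
  have := n2_prob h₁ h₂
  refine Integrable.of_bound (C := D) hF.aestronglyMeasurable (Eventually.of_forall fun R => ?_)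
  rw [Real.norm_of_nonneg (h0 R)]
  exact hD R

private theorem ball82 (R₀ : R2) (ρ : ℝ) : Metric.closedBall R₀ ρ =
    Icc (R₀.1 - ρ) (R₀.1 + ρ) ×ˢ Icc (R₀.2 - ρ) (R₀.2 + ρ) := by
  obtain ⟨x, y⟩ := R₀
  simp only [← Real.closedBall_eq_Icc, closedBall_prod_same]

/-- the ball against the weights -/
private theorem low82 {r c₀ : ℝ} {Cd : ℕ → ℝ} {R₀ : R2} {v₁ v₂ : ℝ → ℝ} (hr : 0 < r) (hc : 0 < c₀)
    (h₁ : IsDw (2 * r) (R₀.1 - r) v₁ c₀ Cd) (h₂ : IsDw (2 * r) (R₀.2 - r) v₂ c₀ Cd)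
    {F : R2 → ℝ} (hF : Continuous F) (h0 : ∀ R, 0 ≤ F R) {D : ℝ} (hD : ∀ R, F R ≤ D) :
    ∫ R in Metric.closedBall R₀ r, F R ≤ (2 * r / c₀) ^ 2 * ∫ R, F R ∂(n2 v₁ v₂) := by
  have hm : MeasurableSet (Metric.closedBall R₀ r) := Metric.isClosed_closedBall.measurableSet
  have hcp : IsCompact (Metric.closedBall R₀ r) := isCompact_closedBall R₀ r
  have hwc := w2_cont h₁.wt.cont h₂.wt.cont
  have h2r : 0 < 2 * r := by positivity
  have hK : 0 < (2 * r / c₀) ^ 2 := by positivity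
  have h1 : ∫ R in Metric.closedBall R₀ r, F R ≤ ∫ R in Metric.closedBall R₀ r, (2 * r / c₀) ^ 2 * (w2 v₁ v₂ R * F R) := by
    refine setIntegral_mono_on (hF.continuousOn.integrableOn_compact hcp)
      (((continuous_const.mul (hwc.mul hF)).continuousOn).integrableOn_compact hcp) hm fun R hR => ?_
    rw [ball82] at hR
    obtain ⟨g1, g2⟩ := hR
    have e : ∀ x : ℝ, x - r + 2 * r = x + r := fun x => by ring
    have l1 := h₁.low R.1 (by rw [e]; exact g1)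
    have l2 := h₂.low R.2 (by rw [e]; exact g2)
    have hc2 : 0 < c₀ / (2 * r) := by positivity
    have l4 : c₀ / (2 * r) * (c₀ / (2 * r)) ≤ w2 v₁ v₂ R := by
      exact mul_le_mul l1 l2 hc2.le (h₁.wt.nonneg _)
    have l5 : 1 ≤ (2 * r / c₀) ^ 2 * w2 v₁ v₂ R := by
      calc (1 : ℝ) = (2 * r / c₀) ^ 2 * (c₀ / (2 * r) * (c₀ / (2 * r))) := by field_simp
        _ ≤ _ := mul_le_mul_of_nonneg_left l4 hK.le
    calc F R = 1 * F R := (one_mul _).symm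
      _ ≤ ((2 * r / c₀) ^ 2 * w2 v₁ v₂ R) * F R := mul_le_mul_of_nonneg_right l5 (h0 R)
      _ = _ := by ring
  refine h1.trans ?_
  rw [integral_const_mul, ← set82 h₁.wt h₂.wt F hm]
  exact mul_le_mul_of_nonneg_left (setIntegral_le_integral (F_int82 h₁.wt h₂.wt hF h0 hD)
    (Filter.Eventually.of_forall h0)) hK.le

/-- tails of the weights -/
private theorem tail82 {X R₁ κ c₀ : ℝ} {v : ℝ → ℝ} {Cd : ℕ → ℝ} (hX : 0 < X) (hκ : 0 < κ) {A B : ℝ}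
    (hfar : ∀ t ∈ (Icc A B)ᶜ, κ * X ≤ |t - R₁|) (hv : IsDw X R₁ v c₀ Cd) (n : ℕ) :
    ∫ t in (Icc A B)ᶜ, v t ≤ κ⁻¹ ^ n * (π * (Cd n + Cd (n + 2))) := by
  obtain ⟨h1, h2⟩ := Pool.Agent.Helper92.GC.dw_tail hX hv n
  have hvi := wint82 hv.wt.int_one
  have h3 : ∫ t in (Icc A B)ᶜ, v t ≤ ∫ t in (Icc A B)ᶜ, κ⁻¹ ^ n * (v t * (|t - R₁| / X) ^ n) := by
    refine setIntegral_mono_on hvi.integrableOn (h1.const_mul _).integrableOn measurableSet_Icc.compl fun t ht => ?_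
    have hone : 1 ≤ κ⁻¹ * (|t - R₁| / X) := by
      rw [inv_mul_eq_div, le_div_iff₀ hκ, one_mul, le_div_iff₀ hX]
      exact hfar t ht
    have hpow : 1 ≤ κ⁻¹ ^ n * (|t - R₁| / X) ^ n := by
      rw [← mul_pow]
      exact one_le_pow₀ hone
    calc v t = v t * 1 := (mul_one _).symm
      _ ≤ v t * (κ⁻¹ ^ n * (|t - R₁| / X) ^ n) := mul_le_mul_of_nonneg_left hpow (hv.wt.nonneg t)
      _ = _ := by ring
  refine h3.trans ?_
  have h4 : ∫ t in (Icc A B)ᶜ, κ⁻¹ ^ n * (v t * (|t - R₁| / X) ^ n) ≤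
      ∫ t, κ⁻¹ ^ n * (v t * (|t - R₁| / X) ^ n) :=
    setIntegral_le_integral (h1.const_mul _) (Filter.Eventually.of_forall fun t => by
      have := hv.wt.nonneg t
      positivity)
  refine h4.trans ?_
  rw [integral_const_mul]
  exact mul_le_mul_of_nonneg_left h2 (by positivity)

/-- the mass of the complement of an interval -/
private theorem nv_compl82 {r κ x c₀ : ℝ} {v : ℝ → ℝ} {Cd : ℕ → ℝ} (hr : 0 < r) (hκ : 4 ≤ κ) (hv : IsDw (2 * r) (x - r) v c₀ Cd) (n : ℕ) :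
    nv v (Icc (x - κ * r) (x + κ * r))ᶜ ≤ ENNReal.ofReal ((3 / 8 * κ)⁻¹ ^ n * (π * (Cd n + Cd (n + 2)))) := by
  have hvi := wint82 hv.wt.int_one
  have h1 : ∫ t in (Icc (x - κ * r) (x + κ * r))ᶜ, v t ≤ (3 / 8 * κ)⁻¹ ^ n * (π * (Cd n + Cd (n + 2))) := by
    refine tail82 (by positivity) (by positivity) (fun t ht => ?_) hv n
    rw [mem_compl_iff, mem_Icc, not_and_or, not_le, not_le] at ht
    rcases ht with ht | ht
    · have h2 : 3 / 8 * κ * (2 * r) ≤ -(t - (x - r)) := by nlinarith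
      exact h2.trans (neg_le_abs _)
    · have h2 : 3 / 8 * κ * (2 * r) ≤ t - (x - r) := by nlinarith
      exact h2.trans (le_abs_self _)
  unfold nv
  rw [withDensity_apply _ measurableSet_Icc.compl, ← ofReal_integral_eq_lintegral_ofReal hvi.integrableOn
    (Eventually.of_forall hv.wt.nonneg)]
  exact ENNReal.ofReal_le_ofReal h1

/-- the weights against the ball of radius `κ r` -/
private theorem up82 {r κ c₀ : ℝ} {Cd : ℕ → ℝ} {R₀ : R2} {v₁ v₂ : ℝ → ℝ} (hr : 0 < r) (hκ : 4 ≤ κ)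
    (h₁ : IsDw (2 * r) (R₀.1 - r) v₁ c₀ Cd) (h₂ : IsDw (2 * r) (R₀.2 - r) v₂ c₀ Cd)
    {F : R2 → ℝ} (hF : Continuous F) (h0 : ∀ R, 0 ≤ F R) {D : ℝ} (hD : ∀ R, F R ≤ D) (n : ℕ) :
    ∫ R, F R ∂(n2 v₁ v₂) ≤ (Cd 0 / (2 * r)) ^ 2 * (∫ R in Metric.closedBall R₀ (κ * r), F R) +
      D * (2 * ((3 / 8 * κ)⁻¹ ^ n * (π * (Cd n + Cd (n + 2))))) := by
  have hm : MeasurableSet (Metric.closedBall R₀ (κ * r)) := Metric.isClosed_closedBall.measurableSet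
  have hcp : IsCompact (Metric.closedBall R₀ (κ * r)) := isCompact_closedBall R₀ (κ * r)
  have hwc := w2_cont h₁.wt.cont h₂.wt.cont
  have hpr := n2_prob h₁.wt h₂.wt
  have hp1 := prob82 h₁.wt
  have hp2 := prob82 h₂.wt
  have h2r : 0 < 2 * r := by positivity
  have hD0 : 0 ≤ D := (h0 0).trans (hD 0)
  have hFi := F_int82 h₁.wt h₂.wt hF h0 hD
  have d1 : ∀ t, v₁ t ≤ Cd 0 / (2 * r) := fun t => by have := h₁.dec 0 t; simpa using this
  have d2 : ∀ t, v₂ t ≤ Cd 0 / (2 * r) := fun t => by have := h₂.dec 0 t; simpa using this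
  have dk : 0 ≤ Cd 0 / (2 * r) := (h₁.wt.nonneg 0).trans (d1 0)
  rw [← integral_add_compl hm hFi]
  refine add_le_add ?_ ?_
  · rw [set82 h₁.wt h₂.wt F hm, ← integral_const_mul]
    refine setIntegral_mono_on (((hwc.mul hF).continuousOn).integrableOn_compact hcp)
      (((continuous_const.mul hF).continuousOn).integrableOn_compact hcp) hm fun R _ => ?_
    refine mul_le_mul_of_nonneg_right ?_ (h0 R)
    unfold w2
    calc v₁ R.1 * v₂ R.2 ≤ Cd 0 / (2 * r) * (Cd 0 / (2 * r)) := mul_le_mul (d1 _) (d2 _) (h₂.wt.nonneg _) dk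
      _ = (Cd 0 / (2 * r)) ^ 2 := by ring
  · obtain ⟨T, hT⟩ : ∃ T : ℝ, T = (3 / 8 * κ)⁻¹ ^ n * (π * (Cd n + Cd (n + 2))) := ⟨_, rfl⟩
    have t1 := nv_compl82 hr hκ h₁ n
    have t2 := nv_compl82 hr hκ h₂ n
    have hT0 : 0 ≤ T := by
      have e0 : ∀ k : ℕ, 0 ≤ Cd k := by
        intro k
        have e2 : 0 ≤ v₁ (R₀.1 - r) * (|R₀.1 - r - (R₀.1 - r)| / (2 * r)) ^ k :=
          mul_nonneg (h₁.wt.nonneg _) (by positivity)
        have e3 := e2.trans (h₁.dec k (R₀.1 - r))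
        by_contra hc3
        push Not at hc3
        have := div_neg_of_neg_of_pos hc3 h2r
        linarith
      rw [hT]
      have := e0 n
      have := e0 (n + 2)
      have : 0 < κ := by linarith
      have := Real.pi_pos
      positivity
    rw [← hT] at t1 t2 ⊢
    have hsub : (Metric.closedBall R₀ (κ * r))ᶜ ⊆
        ((Icc (R₀.1 - κ * r) (R₀.1 + κ * r))ᶜ ×ˢ (univ : Set ℝ)) ∪
        ((univ : Set ℝ) ×ˢ (Icc (R₀.2 - κ * r) (R₀.2 + κ * r))ᶜ) := by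
      intro R hR
      rw [ball82] at hR
      by_contra hcon
      simp only [mem_union, mem_prod, mem_univ, and_true, true_and, mem_compl_iff, not_or, not_not] at hcon
      exact hR ⟨hcon.1, hcon.2⟩
    have hmass : n2 v₁ v₂ (Metric.closedBall R₀ (κ * r))ᶜ ≤ ENNReal.ofReal (2 * T) := by
      refine (measure_mono hsub).trans ((measure_union_le _ _).trans ?_)
      have s1 : n2 v₁ v₂ ((Icc (R₀.1 - κ * r) (R₀.1 + κ * r))ᶜ ×ˢ (univ : Set ℝ)) ≤ ENNReal.ofReal T := by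
        unfold n2
        rw [Measure.prod_prod, measure_univ, mul_one]
        exact t1
      have s2 : n2 v₁ v₂ ((univ : Set ℝ) ×ˢ (Icc (R₀.2 - κ * r) (R₀.2 + κ * r))ᶜ) ≤ ENNReal.ofReal T := by
        unfold n2
        rw [Measure.prod_prod, measure_univ, one_mul]
        exact t2
      have e3 : ENNReal.ofReal (2 * T) = ENNReal.ofReal T + ENNReal.ofReal T := by
        rw [← ENNReal.ofReal_add hT0 hT0]
        congr 1
        ring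
      rw [e3]
      exact add_le_add s1 s2
    have h5 : ∫ R in (Metric.closedBall R₀ (κ * r))ᶜ, F R ∂(n2 v₁ v₂) ≤
        ∫ _R in (Metric.closedBall R₀ (κ * r))ᶜ, D ∂(n2 v₁ v₂) :=
      setIntegral_mono_on hFi.integrableOn (integrable_const D).integrableOn hm.compl fun R _ => hD R
    refine h5.trans ?_
    rw [setIntegral_const, smul_eq_mul, mul_comm]
    refine mul_le_mul_of_nonneg_left ?_ hD0
    exact ENNReal.toReal_le_of_le_ofReal (by positivity) hmass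

/-- D1b -/
theorem boxdec12 {ε lam C₀ : ℝ} {M : ℕ} (hC₀ : 1 ≤ C₀) (hd : Dec12 ε lam M C₀) (n : ℕ) : ∃ C E : ℝ, 1 ≤ C ∧ 1 ≤ E ∧
    ∀ (m : ℕ) (H r κ t₀ : ℝ) (R₀ : R2) (a : ℤ × ℤ → ℂ) (S : Finset (ℤ × ℤ)), (∀ k, ‖a k‖ ≤ 1) → |t₀| ≤ 3 → 0 < H → 0 < r → 4 ≤ κ →
      (∀ k ∈ S, H / lam ≤ uu 0 k ∧ uu 0 k ≤ lam * H ∧ |tt 0 k - t₀| ≤ 1) → C * (M : ℝ) ^ (3 * m) ≤ H * r →
      (∫ R in Metric.closedBall R₀ r, lf2 t₀ S a R) ^ (1 / 6 : ℝ) ≤ C * (M : ℝ) ^ (ε * (m : ℝ)) *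
        ∑ j ∈ Finset.range (M ^ m), ((∫ R in Metric.closedBall R₀ (κ * r), lf2 t₀ (arc 0 S (M ^ m) j) a R) + E * r ^ 2 * (S.card : ℝ) ^ 12 * κ⁻¹ ^ n) ^ (1 / 6 : ℝ) := by
  obtain ⟨c₀, hc, Cd, hdw⟩ := Pool.Agent.Helper92.GC.exists_dw
  obtain ⟨A, hA⟩ : ∃ A : ℝ, A = max 1 ((Cd 0 / c₀) ^ 2) := ⟨_, rfl⟩
  have hA1 : 1 ≤ A := by rw [hA]; exact le_max_left _ _
  have hA2 : (Cd 0 / c₀) ^ 2 ≤ A := by rw [hA]; exact le_max_right _ _
  obtain ⟨P, hP⟩ : ∃ P : ℝ, P = 8 / c₀ ^ 2 * ((8 / 3) ^ n * (π * (|Cd n| + |Cd (n + 2)|))) := ⟨_, rfl⟩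
  have hP0 : 0 ≤ P := by
    rw [hP]
    have := Real.pi_pos
    positivity
  refine ⟨C₀ * A, 1 + P, one_le_mul_of_one_le_of_one_le hC₀ hA1, by linarith, ?_⟩
  intro m H r κ t₀ R₀ a S ha ht hH hr hκ hS hcond
  have hκ0 : 0 < κ := by linarith
  obtain ⟨v₁, h₁⟩ := hdw (2 * r) (by positivity) (R₀.1 - r)
  obtain ⟨v₂, h₂⟩ := hdw (2 * r) (by positivity) (R₀.2 - r)
  have hMm : (0 : ℝ) ≤ (M : ℝ) ^ (3 * m) := by positivity
  have hcond' : C₀ * (M : ℝ) ^ (3 * m) ≤ H * (2 * r) := by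
    have h1 : C₀ * (M : ℝ) ^ (3 * m) ≤ C₀ * A * (M : ℝ) ^ (3 * m) := by
      refine mul_le_mul_of_nonneg_right ?_ hMm
      nlinarith
    have h2 : H * r ≤ H * (2 * r) := by nlinarith [mul_pos hH hr]
    linarith
  have hdec := hd m H (2 * r) t₀ v₁ v₂ a S hH (by positivity) ht h₁.wt h₂.wt hS hcond'
  change n12 (mu2 v₁ v₂) (qs t₀ S a) ≤ C₀ * (M : ℝ) ^ (ε * (m : ℝ)) * ∑ r ∈ Finset.range (M ^ m), n12 (mu2 v₁ v₂) (qs t₀ (arc 0 S (M ^ m) r) a) at hdec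
  rw [n12_eq82 h₁.wt h₂.wt] at hdec
  obtain ⟨K, hK⟩ : ∃ K : ℝ, K = (2 * r / c₀) ^ 2 := ⟨_, rfl⟩
  have hK0 : 0 < K := by rw [hK]; positivity
  obtain ⟨N, hN⟩ : ∃ N : Finset (ℤ × ℤ) → ℝ, N = fun T => ∫ R, lf2 t₀ T a R ∂(n2 v₁ v₂) := ⟨_, rfl⟩
  have hN0 : ∀ T, 0 ≤ N T := by
    intro T
    rw [hN]
    exact integral_nonneg fun R => lf_nn82 _ _ _ _
  have hlow : ∫ R in Metric.closedBall R₀ r, lf2 t₀ S a R ≤ K * N S := by
    rw [hK, hN]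
    exact low82 hr hc h₁ h₂ (lf_ct82 t₀ S a) (lf_nn82 t₀ S a) (lf_card82 ha)
  have hball0 : 0 ≤ ∫ R in Metric.closedBall R₀ r, lf2 t₀ S a R := integral_nonneg fun R => lf_nn82 _ _ _ _
  have hstep1 : (∫ R in Metric.closedBall R₀ r, lf2 t₀ S a R) ^ (1 / 6 : ℝ) ≤
      K ^ (1 / 6 : ℝ) * (C₀ * (M : ℝ) ^ (ε * (m : ℝ)) * ∑ j ∈ Finset.range (M ^ m), N (arc 0 S (M ^ m) j) ^ (1 / 6 : ℝ)) := by
    calc (∫ R in Metric.closedBall R₀ r, lf2 t₀ S a R) ^ (1 / 6 : ℝ) ≤ (K * N S) ^ (1 / 6 : ℝ) :=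
          Real.rpow_le_rpow hball0 hlow (by norm_num)
      _ = K ^ (1 / 6 : ℝ) * N S ^ (1 / 6 : ℝ) := Real.mul_rpow hK0.le (hN0 S)
      _ ≤ _ := by
          refine mul_le_mul_of_nonneg_left ?_ (Real.rpow_nonneg hK0.le _)
          rw [hN]
          refine hdec.trans (le_of_eq ?_)
          congr 1
          refine Finset.sum_congr rfl fun j _ => ?_
          exact n12_eq82 h₁.wt h₂.wt t₀ _ a
  refine hstep1.trans ?_
  have hMe : 0 ≤ (M : ℝ) ^ (ε * (m : ℝ)) := Real.rpow_nonneg (by positivity) _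
  have hterm : ∀ j ∈ Finset.range (M ^ m), K ^ (1 / 6 : ℝ) * N (arc 0 S (M ^ m) j) ^ (1 / 6 : ℝ) ≤
      A * ((∫ R in Metric.closedBall R₀ (κ * r), lf2 t₀ (arc 0 S (M ^ m) j) a R) + (1 + P) * r ^ 2 * (S.card : ℝ) ^ 12 * κ⁻¹ ^ n) ^ (1 / 6 : ℝ) := by
    intro j _
    obtain ⟨T, hTd⟩ : ∃ T : Finset (ℤ × ℤ), T = arc 0 S (M ^ m) j := ⟨_, rfl⟩
    rw [← hTd]
    have hTS : T ⊆ S := by
      rw [hTd]
      exact Finset.filter_subset _ _
    have hcard : (T.card : ℝ) ^ 12 ≤ (S.card : ℝ) ^ 12 := by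
      have : (T.card : ℝ) ≤ S.card := by exact_mod_cast Finset.card_le_card hTS
      exact pow_le_pow_left₀ (by positivity) this 12
    have hup := up82 (n := n) hr hκ h₁ h₂ (lf_ct82 t₀ T a) (lf_nn82 t₀ T a)
      (fun R => (lf_card82 ha R).trans hcard)
    obtain ⟨B, hB⟩ : ∃ B : ℝ, B = ∫ R in Metric.closedBall R₀ (κ * r), lf2 t₀ T a R := ⟨_, rfl⟩
    have hB0 : 0 ≤ B := by
      rw [hB]
      exact integral_nonneg fun R => lf_nn82 _ _ _ _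
    obtain ⟨G, hG⟩ : ∃ G : ℝ, G = (S.card : ℝ) ^ 12 * κ⁻¹ ^ n := ⟨_, rfl⟩
    have hG0 : 0 ≤ G := by rw [hG]; positivity
    rw [← hB] at hup ⊢
    have hKN : K * N T ≤ A * (B + (1 + P) * r ^ 2 * (S.card : ℝ) ^ 12 * κ⁻¹ ^ n) := by
      have e1 : N T ≤ (Cd 0 / (2 * r)) ^ 2 * B + (S.card : ℝ) ^ 12 * (2 * ((3 / 8 * κ)⁻¹ ^ n * (π * (Cd n + Cd (n + 2))))) := by
        rw [hN]
        exact hup
      have e2 : K * ((Cd 0 / (2 * r)) ^ 2 * B) = (Cd 0 / c₀) ^ 2 * B := by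
        rw [hK]
        field_simp
      have e3 : (3 / 8 * κ)⁻¹ ^ n = (8 / 3) ^ n * κ⁻¹ ^ n := by
        rw [← mul_pow]
        congr 1
        field_simp
      have e4 : K * ((S.card : ℝ) ^ 12 * (2 * ((3 / 8 * κ)⁻¹ ^ n * (π * (Cd n + Cd (n + 2)))))) ≤ P * r ^ 2 * G := by
        rw [e3, hK, hP, hG]
        have e5 : Cd n + Cd (n + 2) ≤ |Cd n| + |Cd (n + 2)| := add_le_add (le_abs_self _) (le_abs_self _)
        have hpi := Real.pi_pos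
        have e6 : (2 * r / c₀) ^ 2 * ((S.card : ℝ) ^ 12 * (2 * ((8 / 3) ^ n * κ⁻¹ ^ n * (π * (Cd n + Cd (n + 2)))))) =
            (8 / c₀ ^ 2 * ((8 / 3) ^ n * (π * (Cd n + Cd (n + 2))))) * (r ^ 2 * ((S.card : ℝ) ^ 12 * κ⁻¹ ^ n)) := by
          field_simp
          ring
        rw [e6, mul_assoc _ (r ^ 2)]
        refine mul_le_mul_of_nonneg_right ?_ (by positivity)
        gcongr
      have e7 : K * N T ≤ (Cd 0 / c₀) ^ 2 * B + P * r ^ 2 * G := by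
        calc K * N T ≤ K * ((Cd 0 / (2 * r)) ^ 2 * B + (S.card : ℝ) ^ 12 * (2 * ((3 / 8 * κ)⁻¹ ^ n * (π * (Cd n + Cd (n + 2)))))) :=
              mul_le_mul_of_nonneg_left e1 hK0.le
          _ = K * ((Cd 0 / (2 * r)) ^ 2 * B) + K * ((S.card : ℝ) ^ 12 * (2 * ((3 / 8 * κ)⁻¹ ^ n * (π * (Cd n + Cd (n + 2)))))) := by ring
          _ ≤ _ := by
              rw [e2]
              exact add_le_add le_rfl e4
      have e8 : (1 + P) * r ^ 2 * (S.card : ℝ) ^ 12 * κ⁻¹ ^ n = (1 + P) * r ^ 2 * G := by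
        rw [hG]
        ring
      rw [e8]
      have e9 : (Cd 0 / c₀) ^ 2 * B ≤ A * B := mul_le_mul_of_nonneg_right hA2 hB0
      have e10 : 0 ≤ r ^ 2 * G := by positivity
      have e11 : P * r ^ 2 * G ≤ A * ((1 + P) * r ^ 2 * G) := by
        have : P ≤ A * (1 + P) := by nlinarith
        calc P * r ^ 2 * G = P * (r ^ 2 * G) := by ring
          _ ≤ A * (1 + P) * (r ^ 2 * G) := mul_le_mul_of_nonneg_right this e10
          _ = _ := by ring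
      linarith
    have hbr0 : 0 ≤ B + (1 + P) * r ^ 2 * (S.card : ℝ) ^ 12 * κ⁻¹ ^ n := by positivity
    calc K ^ (1 / 6 : ℝ) * N T ^ (1 / 6 : ℝ) = (K * N T) ^ (1 / 6 : ℝ) := (Real.mul_rpow hK0.le (hN0 T)).symm
      _ ≤ (A * (B + (1 + P) * r ^ 2 * (S.card : ℝ) ^ 12 * κ⁻¹ ^ n)) ^ (1 / 6 : ℝ) :=
          Real.rpow_le_rpow (mul_nonneg hK0.le (hN0 T)) hKN (by norm_num)
      _ = A ^ (1 / 6 : ℝ) * (B + (1 + P) * r ^ 2 * (S.card : ℝ) ^ 12 * κ⁻¹ ^ n) ^ (1 / 6 : ℝ) :=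
          Real.mul_rpow (by linarith) hbr0
      _ ≤ A * (B + (1 + P) * r ^ 2 * (S.card : ℝ) ^ 12 * κ⁻¹ ^ n) ^ (1 / 6 : ℝ) := by
          refine mul_le_mul_of_nonneg_right ?_ (Real.rpow_nonneg hbr0 _)
          calc A ^ (1 / 6 : ℝ) ≤ A ^ (1 : ℝ) := Real.rpow_le_rpow_of_exponent_le hA1 (by norm_num)
            _ = A := Real.rpow_one A
  calc K ^ (1 / 6 : ℝ) * (C₀ * (M : ℝ) ^ (ε * (m : ℝ)) * ∑ j ∈ Finset.range (M ^ m), N (arc 0 S (M ^ m) j) ^ (1 / 6 : ℝ))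
      = C₀ * (M : ℝ) ^ (ε * (m : ℝ)) * ∑ j ∈ Finset.range (M ^ m), K ^ (1 / 6 : ℝ) * N (arc 0 S (M ^ m) j) ^ (1 / 6 : ℝ) := by
        rw [← Finset.mul_sum]
        ring
    _ ≤ C₀ * (M : ℝ) ^ (ε * (m : ℝ)) * ∑ j ∈ Finset.range (M ^ m),
        A * ((∫ R in Metric.closedBall R₀ (κ * r), lf2 t₀ (arc 0 S (M ^ m) j) a R) + (1 + P) * r ^ 2 * (S.card : ℝ) ^ 12 * κ⁻¹ ^ n) ^ (1 / 6 : ℝ) := by
        refine mul_le_mul_of_nonneg_left (Finset.sum_le_sum hterm) (mul_nonneg (by linarith) hMe)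
    _ = _ := by
        rw [← Finset.mul_sum]
        ring

end Pool.Agent.Helper60.RT
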